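import Pool.Agent.Q206.Telo.EOrder

set_option autoImplicit false

/-!
Enumeration degrees; telograph-cototal and `n`-cylinder-cototal degrees.
The enumeration reducibility `ERed` is defined in `Pool/Agent/Q206/Intro/Defs.lean`.
-/

namespace Q206.Telo

open Q206.Intro

/-- The sets of natural numbers, preordered by enumeration reducibility. -/
def ESet : Type := Set ℕ

instance : Preorder ESet where
  le A B := ERed A B
  le_refl A := eRed_refl A
  le_trans _ _ _ := eRed_trans

/-- The partial order of enumeration degrees. -/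
abbrev EDeg : Type := Antisymmetrization ESet (· ≤ ·)

/-- The enumeration degree of a set. -/
def deg (A : Set ℕ) : EDeg := toAntisymmetrization (α := ESet) (· ≤ ·) A

/-- `A ⊕ B = {2n : n ∈ A} ∪ {2n+1 : n ∈ B}`. -/
def join (A B : Set ℕ) : Set ℕ := {x | (∃ n ∈ A, x = 2 * n) ∨ ∃ n ∈ B, x = 2 * n + 1}

/-- `{⟨n, m⟩ : g(n) = m}`. -/
def graph (g : ℕ → ℕ) : Set ℕ := {x | ∃ n m, x = Nat.pair n m ∧ g n = m}

/-- `{⟨n, m⟩ : g(n) = m, m ≥ b}`. -/
def tgraph (b : ℕ) (g : ℕ → ℕ) : Set ℕ := {x | ∃ n m, x = Nat.pair n m ∧ g n = m ∧ b ≤ m}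

/-- The codes of the initial segments of `g` (the coding of the finite strings by the natural
numbers is `Encodable.encode`, a computable bijection). -/
def cgraph (g : ℕ → ℕ) : Set ℕ := {x | ∃ s : ℕ, x = Encodable.encode ((List.range s).map g)}

/-- cylinder-cototal degrees -/
def CylinderCototal (a : EDeg) : Prop := ∃ g : ℕ → ℕ, a = deg (cgraph g)ᶜ

/-- `n`-cylinder-cototal degrees: the joins (least upper bounds) of `n` cylinder-cototal degrees -/
def NCylinderCototal (n : ℕ) (a : EDeg) : Prop :=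
  ∃ c : Fin n → EDeg, (∀ i, CylinderCototal (c i)) ∧ IsLUB (Set.range c) a

/-- telograph-cototal degrees -/
def TelographCototal (a : EDeg) : Prop :=
  ∃ (g : ℕ → ℕ) (b : ℕ), a = deg (join (graph g)ᶜ (tgraph b g))

end Q206.Telo
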