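import Pool.Agent.Q206.Intro.Ops

set_option autoImplicit false

/-!
Enumeration reducibility is a preorder.
-/

namespace Q206.Intro

open Set Encodable
open Q206.En (SE lst mem_lst prim_lst lt_of_mem_D exists_D)
open Pool.Agent.Helper227 (S1)

theorem SE_trans {B C : Set ℕ} {α : Type*} [Primcodable α] {p : α → Prop} (hp : SE C p)
    (h : SE B fun x : ℕ => x ∈ C) : SE B p := by
  obtain ⟨E, hE, -, eE⟩ := hp
  have h1 : SE B fun a => ∃ L : List ℕ, ((∀ x ∈ L, x ∈ C) ∧ E (L, a)) := by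
    refine SE.ex (SE.and ?_ ?_)
    · exact SE.all_mem (α := α × List ℕ) (p := fun _ x => x ∈ C) (f := fun x => x.2)
        (h.comp Primrec.snd) Primrec.snd
    · exact SE.of_s1 (hE.comp (Primrec.snd.pair Primrec.fst))
  exact h1.of_eq fun a => (eE a).symm

theorem eRed_iff {A B : Set ℕ} : ERed A B ↔ SE B fun x : ℕ => x ∈ A := by
  constructor
  · rintro ⟨Θ, hΘ, rfl⟩
    have h1 : SE B fun n : ℕ => ∃ u : ℕ, ((∀ x ∈ lst u, x ∈ B) ∧ (u, n) ∈ Θ) := by
      refine SE.ex (SE.and ?_ ?_)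
      · exact SE.all_mem (α := ℕ × ℕ) (p := fun _ x => x ∈ B) (f := fun x => lst x.2)
          (SE.query.comp Primrec.snd) (prim_lst.comp Primrec.snd)
      · exact SE.of_s1 (S1.comp (f := fun x : ℕ × ℕ => (x.2, x.1)) (S1.of_re hΘ)
          (Primrec.snd.pair Primrec.fst))
    refine h1.of_eq fun n => ?_
    refine exists_congr fun u => and_congr_left fun _ => ?_
    exact ⟨fun h x hx => h x (mem_lst.2 hx), fun h x hx => h (mem_lst.1 hx)⟩
  · exact eRed_of_SE

theorem eRed_refl (A : Set ℕ) : ERed A A := eRed_iff.2 SE.query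

theorem eRed_trans {A B C : Set ℕ} (h1 : ERed A B) (h2 : ERed B C) : ERed A C :=
  eRed_iff.2 (SE_trans (eRed_iff.1 h1) (eRed_iff.1 h2))

end Q206.Intro
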