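import Pool.Agent.Q206.Telo.Defs

set_option autoImplicit false

namespace Q206.Telo

open Set Filter Topology Encodable Q206.Intro Q206.Gen
open Q206.En (SE lst mem_lst prim_lst lt_of_mem_D exists_D)
open Pool.Agent.Helper227 (S1)

/-- The set in question. -/
def T (g : ℕ → ℕ) : Set ℕ := join (graph g)ᶜ (tgraph 2 g)

theorem mem_T_even {g : ℕ → ℕ} {n m : ℕ} : 2 * Nat.pair n m ∈ T g ↔ g n ≠ m := by
  unfold T join graph
  constructor
  · rintro (⟨x, hx, h⟩ | ⟨x, -, h⟩)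
    · have : x = Nat.pair n m := by omega
      subst this
      intro h2
      exact hx ⟨n, m, rfl, h2⟩
    · omega
  · intro h
    refine Or.inl ⟨Nat.pair n m, ?_, rfl⟩
    rintro ⟨n', m', h1, h2⟩
    obtain ⟨rfl, rfl⟩ := Nat.pair_eq_pair.1 h1
    exact h h2

theorem mem_T_odd {g : ℕ → ℕ} {n m : ℕ} : 2 * Nat.pair n m + 1 ∈ T g ↔ g n = m ∧ 2 ≤ m := by
  unfold T join tgraph
  constructor
  · rintro (⟨x, -, h⟩ | ⟨x, ⟨n', m', rfl, h1, h2⟩, h⟩)
    · omega
    · have : Nat.pair n m = Nat.pair n' m' := by omega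
      obtain ⟨rfl, rfl⟩ := Nat.pair_eq_pair.1 this
      exact ⟨h1, h2⟩
  · rintro ⟨h1, h2⟩
    exact Or.inr ⟨Nat.pair n m, ⟨n, m, rfl, h1, h2⟩, rfl⟩

theorem cases_T (x : ℕ) : ∃ n m, x = 2 * Nat.pair n m ∨ x = 2 * Nat.pair n m + 1 := by
  refine ⟨(x / 2).unpair.1, (x / 2).unpair.2, ?_⟩
  rw [Nat.pair_unpair]
  omega

theorem app_mono (Θ : Set (ℕ × ℕ)) {X Y : Set ℕ} (h : X ⊆ Y) : app Θ X ⊆ app Θ Y := by
  rintro n ⟨u, hu, hn⟩
  exact ⟨u, hu.trans h, hn⟩

theorem finite_D (u : ℕ) : (D u).Finite :=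
  (Set.finite_lt_nat u).subset fun _ hx => lt_of_mem_D hx

/-- finite use -/
theorem app_eventually {Θ : Set (ℕ × ℕ)} {X : Set ℕ} {Y : ℕ → Set ℕ}
    (h : ∀ x ∈ X, ∀ᶠ m in atTop, x ∈ Y m) {n : ℕ} (hn : n ∈ app Θ X) :
    ∀ᶠ m in atTop, n ∈ app Θ (Y m) := by
  obtain ⟨u, hu, hn⟩ := hn
  have h1 : ∀ᶠ m in atTop, ∀ x ∈ D u, x ∈ Y m :=
    ((finite_D u).eventually_all).2 fun x hx => h x (hu hx)
  filter_upwards [h1] with m hm
  exact ⟨u, hm, hn⟩

/-- `(Φ, Ψ, k)` works at `g` (only the part which is needed) -/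
structure Works (Φ Ψ : Set (ℕ × ℕ)) (k : ℕ) (g : ℕ → ℕ) : Prop where
  lt : ∀ x, x ∈ app Φ (T g) → x.unpair.1 < k
  chain : ∀ c < k, ∀ σ σ' : List ℕ, Nat.pair c (encode σ) ∉ app Φ (T g) →
    Nat.pair c (encode σ') ∉ app Φ (T g) → σ <+: σ' ∨ σ' <+: σ
  closed : ∀ c < k, ∀ σ σ' : List ℕ, σ <+: σ' → Nat.pair c (encode σ') ∉ app Φ (T g) →
    Nat.pair c (encode σ) ∉ app Φ (T g)
  inv : ∀ x, x ∈ app Ψ (app Φ (T g)) ↔ x ∈ T g

/-- the function `z` with the values from `n0` on up to `n0 + k` replaced by those of `x` -/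
def G (z : ℕ → ℕ) (n0 k : ℕ) (x : ℕ → ℕ) : ℕ → ℕ :=
  fun c => if n0 ≤ c ∧ c < n0 + k then x (c - n0) else z c

theorem G_self (z : ℕ → ℕ) {n0 k i : ℕ} (h : i < k) (x : ℕ → ℕ) : G z n0 k x (n0 + i) = x i := by
  unfold G
  rw [if_pos (by omega)]
  congr 1
  omega

/-- the configuration -/
def cf (j m : ℕ) : ℕ → ℕ := fun i => if i = j then 0 else m

def sg (j : ℕ) : ℕ → ℕ := fun i => if i = j then 1 else 0

theorem conv_zero (z : ℕ → ℕ) (n0 k j : ℕ) {x : ℕ} (hx : x ∈ T (G z n0 k fun _ => 0)) :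
    ∀ᶠ m in atTop, x ∈ T (G z n0 k (cf j m)) := by
  obtain ⟨n, m', rfl | rfl⟩ := cases_T x
  · rw [mem_T_even] at hx
    filter_upwards [eventually_gt_atTop m'] with m hm
    rw [mem_T_even]
    unfold G cf at *
    beta_reduce at *
    split_ifs at * <;> omega
  · rw [mem_T_odd] at hx
    filter_upwards with m
    rw [mem_T_odd]
    unfold G cf at *
    beta_reduce at *
    split_ifs at * <;> omega

theorem conv_sg (z : ℕ → ℕ) (n0 k : ℕ) {i j : ℕ} (hij : i ≠ j) {x : ℕ}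
    (hx : x ∈ T (G z n0 k (sg i))) : ∀ᶠ m in atTop, x ∈ T (G z n0 k (cf j m)) := by
  obtain ⟨n, m', rfl | rfl⟩ := cases_T x
  · rw [mem_T_even] at hx
    filter_upwards [eventually_gt_atTop m'] with m hm
    rw [mem_T_even]
    unfold G cf sg at *
    split_ifs at * <;> omega
  · rw [mem_T_odd] at hx
    filter_upwards with m
    rw [mem_T_odd]
    unfold G cf sg at *
    split_ifs at * <;> omega

/-- The combinatorial core. -/
theorem no_config {Φ Ψ : Set (ℕ × ℕ)} {k : ℕ} {z : ℕ → ℕ} {n0 : ℕ}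
    (h : ∀ x : ℕ → ℕ, (∃ a b : ℕ, ∃ j, ∀ i, x i = if i = j then a else b) →
      Works Φ Ψ k (G z n0 (k + 1) x)) : False := by
  have h0 : Works Φ Ψ k (G z n0 (k + 1) fun _ => 0) := h _ ⟨0, 0, 0, fun i => by simp⟩
  have hs : ∀ i, Works Φ Ψ k (G z n0 (k + 1) (sg i)) := fun i => h _ ⟨1, 0, i, fun _ => rfl⟩
  have hc : ∀ j m, Works Φ Ψ k (G z n0 (k + 1) (cf j m)) := fun j m => h _ ⟨0, m, j, fun _ => rfl⟩
  -- the witnesses
  have key : ∀ j : Fin (k + 1), ∃ c : Fin k, ∃ σ : List ℕ,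
      Nat.pair c (encode σ) ∈ app Φ (T (G z n0 (k + 1) (sg j))) ∧
      Nat.pair c (encode σ) ∉ app Φ (T (G z n0 (k + 1) fun _ => 0)) ∧
      ∀ i : Fin (k + 1), i ≠ j → Nat.pair c (encode σ) ∉ app Φ (T (G z n0 (k + 1) (sg i))) := by
    intro j
    have h1 : 2 * Nat.pair (n0 + j) 0 ∈ T (G z n0 (k + 1) (sg j)) := by
      rw [mem_T_even, G_self z j.2]
      simp [sg]
    rw [← (hs j).inv] at h1
    obtain ⟨u, hu, hΨ⟩ := h1
    have h2 : ∀ m, ∃ y ∈ D u, y ∉ app Φ (T (G z n0 (k + 1) (cf j m))) := by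
      intro m
      by_contra hcon
      push Not at hcon
      have h3 : 2 * Nat.pair (n0 + j) 0 ∈ app Ψ (app Φ (T (G z n0 (k + 1) (cf j m)))) :=
        ⟨u, hcon, hΨ⟩
      rw [(hc j m).inv, mem_T_even, G_self z j.2] at h3
      simp [cf] at h3
    choose y hy hy2 using h2
    -- pigeonhole
    obtain ⟨y0, hy0, hfreq⟩ : ∃ y0 ∈ D u, ∃ᶠ m in atTop, y m = y0 := by
      by_contra hcon
      push Not at hcon
      have h3 : ∀ᶠ m in atTop, ∀ y0 ∈ D u, y m ≠ y0 :=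
        ((finite_D u).eventually_all).2 fun y0 hy0 => hcon y0 hy0
      obtain ⟨m, hm⟩ := h3.exists
      exact hm (y m) (hy m) rfl
    have hno : ∀ X : Set ℕ, (∀ x ∈ X, ∀ᶠ m in atTop, x ∈ T (G z n0 (k + 1) (cf j m))) →
        y0 ∉ app Φ X := by
      intro X hX hy0X
      obtain ⟨m, hm1, hm2⟩ := (hfreq.and_eventually (app_eventually hX hy0X)).exists
      rw [← hm1] at hm2
      exact hy2 m hm2
    have hc1 : y0.unpair.1 < k := (hs j).lt _ (hu hy0)
    have hpair : Nat.pair (⟨y0.unpair.1, hc1⟩ : Fin k)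
        (encode (Denumerable.ofNat (List ℕ) y0.unpair.2)) = y0 := by
      rw [Denumerable.encode_ofNat]
      exact Nat.pair_unpair y0
    refine ⟨⟨y0.unpair.1, hc1⟩, Denumerable.ofNat (List ℕ) y0.unpair.2, ?_, ?_, ?_⟩
    · rw [hpair]; exact hu hy0
    · rw [hpair]; exact hno _ fun x hx => conv_zero z n0 (k + 1) j hx
    · intro i hij
      rw [hpair]
      exact hno _ fun x hx => conv_sg z n0 (k + 1) (fun h => hij (Fin.ext h)) hx
  choose c σ hσ1 hσ2 hσ3 using key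
  obtain ⟨j, j', hne, he⟩ := Fintype.exists_ne_map_eq_of_card_lt c (by simp)
  have h2 := hσ2 j'
  have h3 := hσ3 j' j hne
  have h4 := hσ3 j j' hne.symm
  rw [← he] at h2 h3
  rcases h0.chain (c j) (c j).2 _ _ (hσ2 j) h2 with h5 | h5
  · exact (hs j).closed _ (c j).2 _ _ h5 h3 (hσ1 j)
  · have h6 := (hs j').closed _ (c j).2 _ _ h5 h4
    rw [he] at h6
    exact h6 (hσ1 j')

/-! ### Borel complexity -/

theorem isOpen_T (x : ℕ) : IsOpen {g : ℕ → ℕ | x ∈ T g} := by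
  obtain ⟨n, m, rfl | rfl⟩ := cases_T x
  · have h : {g : ℕ → ℕ | 2 * Nat.pair n m ∈ T g} = (fun g : ℕ → ℕ => g n) ⁻¹' {a | a ≠ m} := by
      ext g; simp [mem_T_even]
    rw [h]
    exact (isOpen_discrete _).preimage (continuous_apply n)
  · have h : {g : ℕ → ℕ | 2 * Nat.pair n m + 1 ∈ T g} =
        (fun g : ℕ → ℕ => g n) ⁻¹' {a | a = m ∧ 2 ≤ m} := by
      ext g; simp [mem_T_odd]
    rw [h]
    exact (isOpen_discrete _).preimage (continuous_apply n)

theorem isOpen_app (Θ : Set (ℕ × ℕ)) {F : (ℕ → ℕ) → Set ℕ} (hF : ∀ x, IsOpen {g | x ∈ F g})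
    (x : ℕ) : IsOpen {g | x ∈ app Θ (F g)} := by
  have h : {g | x ∈ app Θ (F g)} = ⋃ u : ℕ, ⋃ _ : (u, x) ∈ Θ, ⋂ y ∈ D u, {g | y ∈ F g} := by
    ext g
    simp only [mem_iUnion, mem_iInter, mem_ofPred_eq, app, exists_prop]
    exact exists_congr fun u => and_comm
  rw [h]
  exact isOpen_iUnion fun u => isOpen_iUnion fun _ => (finite_D u).isOpen_biInter fun y _ => hF y

theorem bm_imp {X : Type*} [TopologicalSpace X] {s t : Set X} (hs : BaireMeasurableSet s)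
    (ht : BaireMeasurableSet t) : BaireMeasurableSet {x | x ∈ s → x ∈ t} := by
  have h : {x | x ∈ s → x ∈ t} = sᶜ ∪ t := by
    ext x
    simp only [mem_ofPred_eq, mem_union, mem_compl_iff]
    tauto
  rw [h]
  exact hs.compl.union ht

theorem bm_const {X : Type*} [TopologicalSpace X] (P : Prop) : BaireMeasurableSet {_x : X | P} := by
  by_cases h : P
  · simp only [h]
    exact isOpen_univ.baireMeasurableSet
  · simp only [h]
    exact isOpen_empty.baireMeasurableSet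

theorem bm_all {X ι : Type*} [TopologicalSpace X] [Countable ι] {p : ι → X → Prop}
    (h : ∀ i, BaireMeasurableSet {x | p i x}) : BaireMeasurableSet {x | ∀ i, p i x} := by
  have h1 : {x | ∀ i, p i x} = ⋂ i, {x | p i x} := by ext x; simp
  rw [h1]
  exact BaireMeasurableSet.iInter h

theorem bm_works (Φ Ψ : Set (ℕ × ℕ)) (k : ℕ) : BaireMeasurableSet {g | Works Φ Ψ k g} := by
  have h1 : ∀ x, BaireMeasurableSet {g | x ∈ app Φ (T g)} := fun x =>
    (isOpen_app Φ isOpen_T x).baireMeasurableSet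
  have h2 : ∀ x, BaireMeasurableSet {g | x ∈ app Ψ (app Φ (T g))} := fun x =>
    (isOpen_app Ψ (isOpen_app Φ isOpen_T) x).baireMeasurableSet
  have h3 : ∀ x, BaireMeasurableSet {g | x ∈ T g} := fun x => (isOpen_T x).baireMeasurableSet
  have h4 : {g | Works Φ Ψ k g} =
      {g | ∀ x, x ∈ app Φ (T g) → x.unpair.1 < k} ∩
      ({g | ∀ c, ∀ σ σ' : List ℕ, c < k → Nat.pair c (encode σ) ∉ app Φ (T g) →
        Nat.pair c (encode σ') ∉ app Φ (T g) → σ <+: σ' ∨ σ' <+: σ} ∩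
      ({g | ∀ c, ∀ σ σ' : List ℕ, c < k → σ <+: σ' → Nat.pair c (encode σ') ∉ app Φ (T g) →
        Nat.pair c (encode σ) ∉ app Φ (T g)} ∩
      ({g | ∀ x, x ∈ app Ψ (app Φ (T g)) → x ∈ T g} ∩
       {g | ∀ x, x ∈ T g → x ∈ app Ψ (app Φ (T g))}))) := by
    ext g
    constructor
    · rintro ⟨a, b, c, d⟩
      exact ⟨a, fun c' σ σ' hc => b c' hc σ σ', fun c' σ σ' hc => c c' hc σ σ',
        fun x => (d x).1, fun x => (d x).2⟩
    · rintro ⟨a, b, c, d, e⟩
      exact ⟨a, fun c' hc σ σ' => b c' σ σ' hc, fun c' hc σ σ' => c c' σ σ' hc,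
        fun x => ⟨d x, e x⟩⟩
  rw [h4]
  refine BaireMeasurableSet.inter (bm_all fun x => bm_imp (h1 x) (bm_const _)) ?_
  refine BaireMeasurableSet.inter (bm_all fun c => bm_all fun σ => bm_all fun σ' =>
    bm_imp (bm_const _) (bm_imp (h1 _).compl (bm_imp (h1 _).compl (bm_const _)))) ?_
  refine BaireMeasurableSet.inter (bm_all fun c => bm_all fun σ => bm_all fun σ' =>
    bm_imp (bm_const _) (bm_imp (bm_const _) (bm_imp (h1 _).compl (h1 _).compl))) ?_
  exact BaireMeasurableSet.inter (bm_all fun x => bm_imp (h2 x) (h3 x))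
    (bm_all fun x => bm_imp (h3 x) (h2 x))

/-- simultaneous transpositions -/
def swps (n0 : ℕ) (k : ℕ) (w x : Fin k → ℕ) : (ℕ → ℕ) ≃ₜ (ℕ → ℕ) :=
  Homeomorph.piCongrRight fun c => if h : n0 ≤ c ∧ c < n0 + k then
    (Equiv.swap (w ⟨c - n0, by omega⟩) (x ⟨c - n0, by omega⟩)).toHomeomorph
      (fun _ => ⟨fun _ => isOpen_discrete _, fun _ => isOpen_discrete _⟩)
    else Homeomorph.refl ℕ

theorem swps_apply (n0 k : ℕ) (z x : ℕ → ℕ) :
    swps n0 k (fun i => z (n0 + i)) (fun i => x i) z = G z n0 k x := by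
  funext c
  unfold swps G
  rw [Homeomorph.piCongrRight_apply]
  by_cases h : n0 ≤ c ∧ c < n0 + k
  · rw [dif_pos h, if_pos h]
    have h1 : n0 + (c - n0) = c := by omega
    simp [h1]
  · rw [dif_neg h, if_neg h]
    rfl

theorem meagre_works (Φ Ψ : Set (ℕ × ℕ)) (k : ℕ) : IsMeagre {g | Works Φ Ψ k g} := by
  obtain ⟨U, hU, hUe⟩ := (bm_works Φ Ψ k).residualEq_isOpen
  rcases U.eq_empty_or_nonempty with rfl | ⟨Y0, hY0⟩
  · have h1 : ∀ᶠ g in residual (ℕ → ℕ), g ∉ {g | Works Φ Ψ k g} := by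
      filter_upwards [hUe] with g hg hg2
      have h2 : (∅ : Set (ℕ → ℕ)) g := by
        rw [← hg]; exact hg2
      exact h2
    exact h1
  · exfalso
    obtain ⟨n0, hn0⟩ := exists_cyl_subset hU hY0
    have h1 : ∀ᶠ z in residual (ℕ → ℕ), ∀ w x : Fin (k + 1) → ℕ,
        (swps n0 (k + 1) w x z ∈ U → Works Φ Ψ k (swps n0 (k + 1) w x z)) := by
      rw [eventually_countable_forall]; intro w
      rw [eventually_countable_forall]; intro x
      have h2 : ∀ᶠ g in residual (ℕ → ℕ), g ∈ U → Works Φ Ψ k g := by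
        filter_upwards [hUe] with g hg hgU
        have h3 : {g | Works Φ Ψ k g} g := by rw [hg]; exact hgU
        exact h3
      exact (tendsto_residual_of_isOpenMap (swps n0 (k + 1) w x).continuous
        (swps n0 (k + 1) w x).isOpenMap).eventually h2
    obtain ⟨z, hz1, hz2⟩ := (dense_of_mem_residual h1).inter_open_nonempty _ (isOpen_cyl Y0 n0)
      ⟨Y0, mem_cyl Y0 n0⟩
    refine no_config (Φ := Φ) (Ψ := Ψ) (k := k) (z := z) (n0 := n0) fun x _ => ?_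
    have h2 := hz2 (fun i => z (n0 + i)) (fun i => x i)
    rw [swps_apply] at h2
    refine h2 (hn0 fun c hc => ?_)
    unfold G
    rw [if_neg (by omega)]
    exact hz1 c hc

/-- the join of the complements of the sets of initial segments -/
def J (k : ℕ) (h : Fin k → ℕ → ℕ) : Set ℕ := {x | ∃ c : Fin k, ∃ y ∈ (cgraph (h c))ᶜ, x = Nat.pair c y}

theorem mem_J {k : ℕ} {h : Fin k → ℕ → ℕ} {c : ℕ} (hc : c < k) {σ : List ℕ} :
    Nat.pair c (encode σ) ∉ J k h ↔ ∃ s, σ = (List.range s).map (h ⟨c, hc⟩) := by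
  constructor
  · intro h1
    by_contra hcon
    refine h1 ⟨⟨c, hc⟩, encode σ, ?_, rfl⟩
    rintro ⟨s, hs⟩
    exact hcon ⟨s, encode_injective hs⟩
  · rintro ⟨s, hs⟩ ⟨c', y, hy, h1⟩
    obtain ⟨h2, rfl⟩ := Nat.pair_eq_pair.1 h1
    subst h2
    exact hy ⟨s, by rw [hs]⟩

theorem works_of_eq {Φ Ψ : Set (ℕ × ℕ)} {k : ℕ} {g : ℕ → ℕ} {h : Fin k → ℕ → ℕ}
    (h1 : app Φ (T g) = J k h) (h2 : app Ψ (J k h) = T g) : Works Φ Ψ k g := by
  refine ⟨?_, ?_, ?_, ?_⟩
  · intro x hx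
    rw [h1] at hx
    obtain ⟨c, y, -, rfl⟩ := hx
    rw [Nat.unpair_pair]
    exact c.2
  · intro c hc σ σ' hσ hσ'
    rw [h1, mem_J hc] at hσ hσ'
    obtain ⟨s, rfl⟩ := hσ
    obtain ⟨s', rfl⟩ := hσ'
    rcases le_total s s' with h3 | h3
    · left
      obtain ⟨d, rfl⟩ := Nat.exists_eq_add_of_le h3
      rw [List.range_add, List.map_append]
      exact List.prefix_append _ _
    · right
      obtain ⟨d, rfl⟩ := Nat.exists_eq_add_of_le h3
      rw [List.range_add, List.map_append]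
      exact List.prefix_append _ _
  · intro c hc σ σ' hσσ' hσ'
    rw [h1, mem_J hc] at hσ' ⊢
    obtain ⟨s', rfl⟩ := hσ'
    refine ⟨σ.length, ?_⟩
    have h3 := List.prefix_iff_eq_take.1 hσσ'
    have h4 : σ.length ≤ s' := by
      have := hσσ'.length_le
      simpa using this
    conv_lhs => rw [h3]
    rw [← List.map_take, List.take_range, min_eq_left h4]
  · intro x
    rw [h1, h2]

theorem countable_re' : Countable {W : Set (ℕ × ℕ) // REPred fun x => x ∈ W} := countable_re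

/-- For a residual set of `g` the degree of `T g` is not `n`-cylinder-cototal. -/
theorem main : ∀ᶠ g in residual (ℕ → ℕ), ∀ k, ∀ h : Fin k → ℕ → ℕ,
    ¬ (ERed (J k h) (T g) ∧ ERed (T g) (J k h)) := by
  have := countable_re'
  have h1 : ∀ᶠ g in residual (ℕ → ℕ), ∀ (Φ Ψ : {W : Set (ℕ × ℕ) // REPred fun x => x ∈ W}) (k : ℕ),
      ¬ Works Φ.1 Ψ.1 k g := by
    rw [eventually_countable_forall]; intro Φ
    rw [eventually_countable_forall]; intro Ψ
    rw [eventually_countable_forall]; intro k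
    exact meagre_works Φ.1 Ψ.1 k
  filter_upwards [h1] with g hg k h
  rintro ⟨⟨Φ, hΦ, h2⟩, Ψ, hΨ, h3⟩
  exact hg ⟨Φ, hΦ⟩ ⟨Ψ, hΨ⟩ k (works_of_eq h2 h3)

/-! ### The degree -/

theorem deg_le {A B : Set ℕ} : deg A ≤ deg B ↔ ERed A B :=
  toAntisymmetrization_le_toAntisymmetrization_iff (α := ESet) (a := A) (b := B)

theorem SE_finite_or {C : Set ℕ} : ∀ (k : ℕ) (p : Fin k → ℕ → Prop), (∀ i, SE C (p i)) →
    SE C fun x => ∃ i, p i x := by
  intro k
  induction k with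
  | zero =>
    intro p _
    exact (SE.of_prim (Pool.Agent.Helper227.PP.const False)).of_eq fun x => by simp
  | succ k ih =>
    intro p hp
    have h1 := SE.or (hp 0) (ih (fun i => p i.succ) fun i => hp i.succ)
    exact h1.of_eq fun x => (Fin.exists_fin_succ (P := fun i => p i x)).symm

theorem J_le {k : ℕ} {h : Fin k → ℕ → ℕ} {T : Set ℕ} (H : ∀ i, ERed (cgraph (h i))ᶜ T) :
    ERed (J k h) T := by
  rw [eRed_iff]
  have h1 := SE_finite_or (C := T) k (fun i x => x.unpair.1 = i ∧ x.unpair.2 ∈ (cgraph (h i))ᶜ) (by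
    intro i
    refine SE.and (SE.of_prim ?_) ((eRed_iff.1 (H i)).comp (Primrec.snd.comp Primrec.unpair))
    exact Primrec.eq.comp (Primrec.fst.comp Primrec.unpair) (Primrec.const _))
  refine h1.of_eq fun x => ?_
  constructor
  · rintro ⟨i, h2, h3⟩
    exact ⟨i, _, h3, by rw [← h2, Nat.pair_unpair]⟩
  · rintro ⟨i, y, hy, rfl⟩
    exact ⟨i, by rw [Nat.unpair_pair], by rw [Nat.unpair_pair]; exact hy⟩

theorem le_J {k : ℕ} {h : Fin k → ℕ → ℕ} (i : Fin k) : ERed (cgraph (h i))ᶜ (J k h) := by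
  rw [eRed_iff]
  have h1 : SE (J k h) fun y : ℕ => Nat.pair i y ∈ J k h :=
    SE.query.comp (Primrec₂.natPair.comp (Primrec.const _) Primrec.id)
  refine h1.of_eq fun y => ?_
  constructor
  · rintro ⟨i', y', hy', h2⟩
    obtain ⟨h3, rfl⟩ := Nat.pair_eq_pair.1 h2
    rw [Fin.ext h3]
    exact hy'
  · intro hy
    exact ⟨i, y, hy, rfl⟩

theorem not_nCylinderCototal {g : ℕ → ℕ} (hg : ∀ k, ∀ h : Fin k → ℕ → ℕ,
    ¬ (ERed (J k h) (T g) ∧ ERed (T g) (J k h))) (n : ℕ) : ¬ NCylinderCototal n (deg (T g)) := by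
  rintro ⟨c, hc, hlub⟩
  choose h hh using hc
  refine hg n h ⟨J_le fun i => ?_, ?_⟩
  · rw [← deg_le, ← hh]
    exact hlub.1 ⟨i, rfl⟩
  · rw [← deg_le]
    refine hlub.2 ?_
    rintro _ ⟨i, rfl⟩
    rw [hh, deg_le]
    exact le_J i

/-- There is a telograph-cototal degree which is not `n`-cylinder-cototal for any `n`. -/
theorem exists_degree : ∃ a : EDeg, TelographCototal a ∧ ∀ n, ¬ NCylinderCototal n a := by
  obtain ⟨g, hg⟩ := (dense_of_mem_residual main).nonempty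
  exact ⟨deg (T g), ⟨g, 2, rfl⟩, not_nCylinderCototal hg⟩

end Q206.Telo
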